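import Mathlib

set_option autoImplicit false

namespace Pool.Agent.Results.MP_0edd48_al.NeverTrivial

/-- The free group on `x_0, …, x_{n-1}`. -/
abbrev F (n : ℕ) : Type := FreeGroup (Fin n)

/-- The free generators. -/
def x {n : ℕ} (i : Fin n) : F n := FreeGroup.of i

/-- `IA(F(n))`: the automorphisms acting trivially on the abelianization of `F(n)`. -/
def IA (n : ℕ) : Subgroup (MulAut (F n)) where
  carrier := {φ | ∀ g : F n, Abelianization.of (φ g) = Abelianization.of g}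
  one_mem' := fun _ => rfl
  mul_mem' := by
    intro φ ψ hφ hψ g
    rw [MulAut.mul_apply, hφ, hψ]
  inv_mem' := by
    intro φ hφ g
    have h := hφ (φ⁻¹ g)
    rw [← h]
    simp

/-- The automorphisms `K_{ij}`: `x_i ↦ x_j x_i x_j⁻¹`, all other generators fixed (`i ≠ j`). -/
def genC (n : ℕ) : Set (MulAut (F n)) :=
  {φ | ∃ i j : Fin n, i ≠ j ∧ φ (x i) = x j * x i * (x j)⁻¹ ∧ ∀ m, m ≠ i → φ (x m) = x m}

/-- The automorphisms `K_{ijk}`: `x_i ↦ x_i [x_j, x_k]`, all other generators fixed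
(`i ≠ j < k ≠ i`), with `[a,b] = a b a⁻¹ b⁻¹`. -/
def genT (n : ℕ) : Set (MulAut (F n)) :=
  {φ | ∃ i j k : Fin n, i ≠ j ∧ j < k ∧ k ≠ i ∧
    φ (x i) = x i * (x j * x k * (x j)⁻¹ * (x k)⁻¹) ∧ ∀ m, m ≠ i → φ (x m) = x m}

/-- `C(n)`, the subgroup generated by all `K_{ij}`. -/
def C (n : ℕ) : Subgroup (MulAut (F n)) := Subgroup.closure (genC n)

/-- `T(n)`, the subgroup generated by all `K_{ijk}`. -/
def T (n : ℕ) : Subgroup (MulAut (F n)) := Subgroup.closure (genT n)

/-- The normal closure of `C(n)` in `IA(F(n))`, as a subgroup of `Aut F(n)`. -/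
def Cbar (n : ℕ) : Subgroup (MulAut (F n)) :=
  (Subgroup.normalClosure ((C n).subgroupOf (IA n) : Set (IA n))).map (IA n).subtype

section Construct

variable {n : ℕ}

/-- endomorphism sending `x_i` to `w`, fixing the other generators -/
def sub (i : Fin n) (w : F n) : F n →* F n :=
  FreeGroup.lift (Function.update FreeGroup.of i w)

theorem sub_self (i : Fin n) (w : F n) : sub i w (x i) = w := by
  simp [sub, x]

theorem sub_ne (i m : Fin n) (h : m ≠ i) (w : F n) : sub i w (x m) = x m := by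
  simp [sub, x, h]

theorem hom_ext {f g : F n →* F n} (h : ∀ i, f (x i) = g (x i)) : f = g :=
  FreeGroup.ext_hom _ _ h

theorem aut_ext {f g : MulAut (F n)} (h : ∀ i, f (x i) = g (x i)) : f = g := by
  have h1 : f.toMonoidHom = g.toMonoidHom := hom_ext h
  ext z
  exact DFunLike.congr_fun h1 z

/-- `x_i ↦ u x_i w` where `u`, `w` do not involve `x_i` -/
def mk (i : Fin n) (u w : F n) (hu : ∀ v, sub i v u = u) (hw : ∀ v, sub i v w = w) :
    MulAut (F n) :=
  MonoidHom.toMulEquiv (sub i (u * x i * w)) (sub i (u⁻¹ * x i * w⁻¹))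
    (by
      apply hom_ext
      intro m
      by_cases h : m = i
      · subst h
        simp only [MonoidHom.comp_apply, sub_self, map_mul, hu, hw, MonoidHom.id_apply]
        group
      · simp [sub_ne _ _ h])
    (by
      apply hom_ext
      intro m
      by_cases h : m = i
      · subst h
        simp only [MonoidHom.comp_apply, sub_self, map_mul, map_inv, hu, hw, MonoidHom.id_apply]
        group
      · simp [sub_ne _ _ h])

theorem mk_self (i : Fin n) (u w : F n) (hu : ∀ v, sub i v u = u) (hw : ∀ v, sub i v w = w) :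
    mk i u w hu hw (x i) = u * x i * w := sub_self _ _

theorem mk_ne (i m : Fin n) (u w : F n) (hu : ∀ v, sub i v u = u) (hw : ∀ v, sub i v w = w)
    (h : m ≠ i) : mk i u w hu hw (x m) = x m := sub_ne _ _ h _

/-- `K_{ij}` -/
def K (i j : Fin n) (h : i ≠ j) : MulAut (F n) :=
  mk i (x j) (x j)⁻¹ (fun v => sub_ne _ _ h.symm v) (fun v => by rw [map_inv, sub_ne _ _ h.symm v])

/-- `K_{ijk}` -/
def K3 (i j k : Fin n) (h : i ≠ j) (h' : k ≠ i) : MulAut (F n) :=
  mk i 1 (x j * x k * (x j)⁻¹ * (x k)⁻¹) (fun v => map_one _)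
    (fun v => by simp only [map_mul, map_inv, sub_ne _ _ h.symm v, sub_ne _ _ h' v])

theorem K_self (i j : Fin n) (h : i ≠ j) : K i j h (x i) = x j * x i * (x j)⁻¹ := mk_self _ _ _ _ _
theorem K_ne (i j m : Fin n) (h : i ≠ j) (hm : m ≠ i) : K i j h (x m) = x m :=
  mk_ne _ _ _ _ _ _ hm
theorem K3_self (i j k : Fin n) (h : i ≠ j) (h' : k ≠ i) :
    K3 i j k h h' (x i) = x i * (x j * x k * (x j)⁻¹ * (x k)⁻¹) := by
  unfold K3; rw [mk_self, one_mul]
theorem K3_ne (i j k m : Fin n) (h : i ≠ j) (h' : k ≠ i) (hm : m ≠ i) :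
    K3 i j k h h' (x m) = x m :=
  mk_ne _ _ _ _ _ _ hm

theorem K_mem (i j : Fin n) (h : i ≠ j) : K i j h ∈ genC n :=
  ⟨i, j, h, K_self i j h, fun m hm => K_ne i j m h hm⟩

theorem K3_mem (i j k : Fin n) (h : i ≠ j) (h' : k ≠ i) (h'' : j < k) : K3 i j k h h' ∈ genT n :=
  ⟨i, j, k, h, h'', h', K3_self i j k h h', fun m hm => K3_ne i j k m h h' hm⟩

theorem mem_IA_of_gen {φ : MulAut (F n)}
    (h : ∀ i, Abelianization.of (φ (x i)) = Abelianization.of (x i)) : φ ∈ IA n := by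
  have h1 : (Abelianization.of).comp φ.toMonoidHom = (Abelianization.of : F n →* _) :=
    FreeGroup.ext_hom _ _ h
  intro g
  exact DFunLike.congr_fun h1 g

theorem genC_IA {φ : MulAut (F n)} (h : φ ∈ genC n) : φ ∈ IA n := by
  obtain ⟨i, j, _, h1, h2⟩ := h
  apply mem_IA_of_gen
  intro m
  by_cases hm : m = i
  · subst hm
    rw [h1, map_mul, map_mul, map_inv, mul_comm (Abelianization.of (x j)), mul_inv_cancel_right]
  · rw [h2 m hm]

theorem genT_IA {φ : MulAut (F n)} (h : φ ∈ genT n) : φ ∈ IA n := by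
  obtain ⟨i, j, k, _, _, _, h1, h2⟩ := h
  apply mem_IA_of_gen
  intro m
  by_cases hm : m = i
  · subst hm
    rw [h1]
    simp only [map_mul, map_inv]
    rw [mul_comm (Abelianization.of (x j)) (Abelianization.of (x k)), mul_inv_cancel_right,
      mul_inv_cancel, mul_one]
  · rw [h2 m hm]

end Construct

section Relation

/-- the final relation, abstractly, in any group -/
theorem abstract_rel {G : Type*} [Group G] (a b kap sig del : G)
    (hk : kap = 1) (hs : sig = a) (hd : del = b * a⁻¹)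
    (h : kap * sig * del * sig⁻¹ * kap⁻¹ = del * sig * kap * del * kap⁻¹ * sig⁻¹ * del⁻¹) :
    a * b * a⁻¹ * a⁻¹ * b * a * b⁻¹ * b⁻¹ = 1 := by
  rw [hk, hs, hd] at h
  have h1 : a * (b * a⁻¹) * a⁻¹ * (b * a⁻¹) = (b * a⁻¹) * a * (b * a⁻¹) * a⁻¹ := by
    simpa [mul_assoc] using congrArg (fun z => z * (b * a⁻¹)) h
  have h2 : a * b * a⁻¹ * a⁻¹ * b * a = b * b := by
    have := congrArg (fun z => z * a * a) h1
    simp only [mul_assoc] at this ⊢
    simpa using this
  rw [h2]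
  group

theorem agreeY {G : Type*} [Group G] (kap sig del : MulAut G) (U Y Z : G)
    (kU : kap U = U) (kZ : kap Z = Z) (kY : kap Y = U * Y * U⁻¹)
    (sU : sig U = U) (sZ : sig Z = Z) (sY : sig Y = Z * Y * Z⁻¹)
    (dU : del U = U) (dZ : del Z = Z) (dY : del Y = Y * (U⁻¹ * Z⁻¹ * U * Z)) :
    (kap * sig * del * sig⁻¹ * kap⁻¹) Y = (del * sig * kap * del * kap⁻¹ * sig⁻¹ * del⁻¹) Y := by
  have kU' : kap⁻¹ U = U := by apply kap.injective; simp [kU]
  have kZ' : kap⁻¹ Z = Z := by apply kap.injective; simp [kZ]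
  have kY' : kap⁻¹ Y = U⁻¹ * Y * U := by
    apply kap.injective; simp only [MulAut.apply_inv_self, map_mul, map_inv, kU, kY]; group
  have sU' : sig⁻¹ U = U := by apply sig.injective; simp [sU]
  have sZ' : sig⁻¹ Z = Z := by apply sig.injective; simp [sZ]
  have sY' : sig⁻¹ Y = Z⁻¹ * Y * Z := by
    apply sig.injective; simp only [MulAut.apply_inv_self, map_mul, map_inv, sZ, sY]; group
  have dU' : del⁻¹ U = U := by apply del.injective; simp [dU]
  have dZ' : del⁻¹ Z = Z := by apply del.injective; simp [dZ]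
  have dY' : del⁻¹ Y = Y * (U⁻¹ * Z⁻¹ * U * Z)⁻¹ := by
    apply del.injective
    simp only [MulAut.apply_inv_self, map_mul, map_inv, dZ, dY, dU]; group
  simp only [MulAut.mul_apply, map_mul, map_inv, kU, kZ, kY, sU, sZ, sY, dU, dZ, dY, kU', kZ', kY',
    sU', sZ', sY', dU', dZ', dY']
  group

theorem fixes {G : Type*} [Group G] (kap sig del : MulAut G) (V : G)
    (h1 : kap V = V) (h2 : sig V = V) (h3 : del V = V) :
    (kap * sig * del * sig⁻¹ * kap⁻¹) V = V ∧
      (del * sig * kap * del * kap⁻¹ * sig⁻¹ * del⁻¹) V = V := by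
  have h1' : kap⁻¹ V = V := by apply kap.injective; simp [h1]
  have h2' : sig⁻¹ V = V := by apply sig.injective; simp [h2]
  have h3' : del⁻¹ V = V := by apply del.injective; simp [h3]
  constructor <;> simp only [MulAut.mul_apply, h1, h2, h3, h1', h2', h3']

variable {n : ℕ} (p q t : Fin n) (hpq : p ≠ q) (hpt : p ≠ t) (hqt : q ≠ t)

/-- the exact relation in `IA(F(n))` -/
theorem exact_rel (a b k12 k21 k13 k23 : MulAut (F n))
    (ha : a = K3 p q t hpq hpt.symm) (hb : b = K3 q p t hpq.symm hqt.symm)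
    (h12 : k12 = K p q hpq) (h21 : k21 = K q p hpq.symm)
    (h13 : k13 = K p t hpt) (h23 : k23 = K q t hqt)
    (kap sig tau del : MulAut (F n))
    (hkap : kap = k21 * k12) (hsig : sig = a * k23)
    (htau : tau = k21 * k23⁻¹ * k21⁻¹ * k23 * k21 * b * k21⁻¹ * k13)
    (hdel : del = tau * sig⁻¹) :
    kap * sig * del * sig⁻¹ * kap⁻¹ = del * sig * kap * del * kap⁻¹ * sig⁻¹ * del⁻¹ := by
  set X : F n := x p with hX
  set Y : F n := x q with hY
  set Z : F n := x t with hZ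
  have aX : a X = X * (Y * Z * Y⁻¹ * Z⁻¹) := by rw [ha]; exact K3_self _ _ _ _ _
  have aY : a Y = Y := by rw [ha]; exact K3_ne _ _ _ _ _ _ hpq.symm
  have aZ : a Z = Z := by rw [ha]; exact K3_ne _ _ _ _ _ _ hpt.symm
  have bY : b Y = Y * (X * Z * X⁻¹ * Z⁻¹) := by rw [hb]; exact K3_self _ _ _ _ _
  have bX : b X = X := by rw [hb]; exact K3_ne _ _ _ _ _ _ hpq
  have bZ : b Z = Z := by rw [hb]; exact K3_ne _ _ _ _ _ _ hqt.symm
  have c12X : k12 X = Y * X * Y⁻¹ := by rw [h12]; exact K_self _ _ _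
  have c12Y : k12 Y = Y := by rw [h12]; exact K_ne _ _ _ _ hpq.symm
  have c12Z : k12 Z = Z := by rw [h12]; exact K_ne _ _ _ _ hpt.symm
  have c21Y : k21 Y = X * Y * X⁻¹ := by rw [h21]; exact K_self _ _ _
  have c21X : k21 X = X := by rw [h21]; exact K_ne _ _ _ _ hpq
  have c21Z : k21 Z = Z := by rw [h21]; exact K_ne _ _ _ _ hqt.symm
  have c13X : k13 X = Z * X * Z⁻¹ := by rw [h13]; exact K_self _ _ _
  have c13Y : k13 Y = Y := by rw [h13]; exact K_ne _ _ _ _ hpq.symm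
  have c13Z : k13 Z = Z := by rw [h13]; exact K_ne _ _ _ _ hpt.symm
  have c23Y : k23 Y = Z * Y * Z⁻¹ := by rw [h23]; exact K_self _ _ _
  have c23X : k23 X = X := by rw [h23]; exact K_ne _ _ _ _ hpq
  have c23Z : k23 Z = Z := by rw [h23]; exact K_ne _ _ _ _ hqt.symm
  have c21X' : k21⁻¹ X = X := by apply k21.injective; simp [c21X]
  have c21Z' : k21⁻¹ Z = Z := by apply k21.injective; simp [c21Z]
  have c21Y' : k21⁻¹ Y = X⁻¹ * Y * X := by
    apply k21.injective; simp only [MulAut.apply_inv_self, map_mul, map_inv, c21X, c21Y]; group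
  have c23X' : k23⁻¹ X = X := by apply k23.injective; simp [c23X]
  have c23Z' : k23⁻¹ Z = Z := by apply k23.injective; simp [c23Z]
  have c23Y' : k23⁻¹ Y = Z⁻¹ * Y * Z := by
    apply k23.injective; simp only [MulAut.apply_inv_self, map_mul, map_inv, c23Z, c23Y]; group
  have sX : sig X = X * (Y * Z * Y⁻¹ * Z⁻¹) := by
    rw [hsig, MulAut.mul_apply, c23X, aX]
  have sY : sig Y = Z * Y * Z⁻¹ := by
    rw [hsig, MulAut.mul_apply, c23Y, map_mul, map_mul, map_inv, aZ, aY]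
  have sZ : sig Z = Z := by rw [hsig, MulAut.mul_apply, c23Z, aZ]
  have sU : sig (X * Y) = X * Y := by rw [map_mul, sX, sY]; group
  have kZ : kap Z = Z := by rw [hkap, MulAut.mul_apply, c12Z, c21Z]
  have kY : kap Y = (X * Y) * Y * (X * Y)⁻¹ := by
    rw [hkap, MulAut.mul_apply, c12Y, c21Y]; group
  have kX : kap X = (X * Y) * X * (X * Y)⁻¹ := by
    rw [hkap, MulAut.mul_apply, c12X]; simp only [map_mul, map_inv, c21X, c21Y]; group
  have kU : kap (X * Y) = X * Y := by rw [map_mul, kX, kY]; group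
  have tX : tau X = Z * X * Z⁻¹ := by
    rw [htau]
    simp only [MulAut.mul_apply, map_mul, map_inv, c13X, c21X, c21X', c23X, c23X', c21Z, c21Z',
      c23Z, c23Z', bX, bZ]
  have tZ : tau Z = Z := by
    rw [htau]
    simp only [MulAut.mul_apply, c13Z, c21Z, c21Z', c23Z, c23Z', bZ]
  have tY : tau Y = Z * X⁻¹ * Z⁻¹ * X * Y := by
    rw [htau]
    simp only [MulAut.mul_apply, map_mul, map_inv, c13Y, c21X, c21X', c23X, c23X', c21Z, c21Z',
      c23Z, c23Z', bX, bZ, bY, c21Y, c21Y', c23Y, c23Y']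
    group
  have sZ' : sig⁻¹ Z = Z := by apply sig.injective; simp [sZ]
  have sY' : sig⁻¹ Y = Z⁻¹ * Y * Z := by
    apply sig.injective; simp only [MulAut.apply_inv_self, map_mul, map_inv, sZ, sY]; group
  have sU' : sig⁻¹ (X * Y) = X * Y := by
    apply sig.injective; rw [MulAut.apply_inv_self, sU]
  have dZ : del Z = Z := by rw [hdel, MulAut.mul_apply, sZ', tZ]
  have dY : del Y = Y * ((X * Y)⁻¹ * Z⁻¹ * (X * Y) * Z) := by
    rw [hdel, MulAut.mul_apply, sY']; simp only [map_mul, map_inv, tZ, tY]; group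
  have dU : del (X * Y) = X * Y := by
    rw [hdel, MulAut.mul_apply, sU']; simp only [map_mul, tX, tY]; group
  have keyY := agreeY kap sig del (X * Y) Y Z kU kZ kY sU sZ sY dU dZ dY
  have keyU := fixes kap sig del (X * Y) kU sU dU
  apply aut_ext
  intro m
  by_cases hmq : m = q
  · subst hmq; exact keyY
  by_cases hmp : m = p
  · subst hmp
    have e : x m = (X * Y) * Y⁻¹ := by simp [hX]
    rw [e, map_mul, map_inv, map_mul (del * sig * kap * del * kap⁻¹ * sig⁻¹ * del⁻¹) (X * Y) Y⁻¹,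
      map_inv (del * sig * kap * del * kap⁻¹ * sig⁻¹ * del⁻¹) Y, keyU.1, keyU.2, keyY]
  · have am : a (x m) = x m := by rw [ha]; exact K3_ne _ _ _ _ _ _ hmp
    have bm : b (x m) = x m := by rw [hb]; exact K3_ne _ _ _ _ _ _ hmq
    have c12m : k12 (x m) = x m := by rw [h12]; exact K_ne _ _ _ _ hmp
    have c21m : k21 (x m) = x m := by rw [h21]; exact K_ne _ _ _ _ hmq
    have c13m : k13 (x m) = x m := by rw [h13]; exact K_ne _ _ _ _ hmp
    have c23m : k23 (x m) = x m := by rw [h23]; exact K_ne _ _ _ _ hmq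
    have c21m' : k21⁻¹ (x m) = x m := by apply k21.injective; simp [c21m]
    have c23m' : k23⁻¹ (x m) = x m := by apply k23.injective; simp [c23m]
    have kapm : kap (x m) = x m := by rw [hkap, MulAut.mul_apply, c12m, c21m]
    have sigm : sig (x m) = x m := by rw [hsig, MulAut.mul_apply, c23m, am]
    have sigm' : sig⁻¹ (x m) = x m := by apply sig.injective; simp [sigm]
    have taum : tau (x m) = x m := by
      rw [htau]; simp only [MulAut.mul_apply, c13m, c21m', bm, c21m, c23m, c23m']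
    have delm : del (x m) = x m := by rw [hdel, MulAut.mul_apply, sigm', taum]
    have := fixes kap sig del (x m) kapm sigm delm
    rw [this.1, this.2]

/-- The word `r = a b a⁻² b a b⁻²` in `a = K_{123}`, `b = K_{213}`. -/
def r (n : ℕ) (p q t : Fin n) (hpq : p ≠ q) (hpt : p ≠ t) (hqt : q ≠ t) : MulAut (F n) :=
  K3 p q t hpq hpt.symm * K3 q p t hpq.symm hqt.symm * (K3 p q t hpq hpt.symm)⁻¹ *
    (K3 p q t hpq hpt.symm)⁻¹ * K3 q p t hpq.symm hqt.symm * K3 p q t hpq hpt.symm *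
    (K3 q p t hpq.symm hqt.symm)⁻¹ * (K3 q p t hpq.symm hqt.symm)⁻¹

theorem r_mem_Cbar (hp : p < t) (hq : q < t) : r n p q t hpq hpt hqt ∈ Cbar n := by
  set N : Subgroup (IA n) := Subgroup.normalClosure ((C n).subgroupOf (IA n) : Set (IA n)) with hN
  let A : IA n := ⟨K3 p q t hpq hpt.symm, genT_IA (K3_mem _ _ _ _ _ hq)⟩
  let B : IA n := ⟨K3 q p t hpq.symm hqt.symm, genT_IA (K3_mem _ _ _ _ _ hp)⟩
  let k12 : IA n := ⟨K p q hpq, genC_IA (K_mem _ _ _)⟩
  let k21 : IA n := ⟨K q p hpq.symm, genC_IA (K_mem _ _ _)⟩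
  let k13 : IA n := ⟨K p t hpt, genC_IA (K_mem _ _ _)⟩
  let k23 : IA n := ⟨K q t hqt, genC_IA (K_mem _ _ _)⟩
  have mem : ∀ k : IA n, (k : MulAut (F n)) ∈ genC n → QuotientGroup.mk' N k = 1 := by
    intro k hk
    rw [← MonoidHom.mem_ker, QuotientGroup.ker_mk']
    apply Subgroup.subset_normalClosure
    exact Subgroup.subset_closure hk
  have m12 : QuotientGroup.mk' N k12 = 1 := mem _ (K_mem p q hpq)
  have m21 : QuotientGroup.mk' N k21 = 1 := mem _ (K_mem q p hpq.symm)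
  have m13 : QuotientGroup.mk' N k13 = 1 := mem _ (K_mem p t hpt)
  have m23 : QuotientGroup.mk' N k23 = 1 := mem _ (K_mem q t hqt)
  let kap : IA n := k21 * k12
  let sig : IA n := A * k23
  let tau : IA n := k21 * k23⁻¹ * k21⁻¹ * k23 * k21 * B * k21⁻¹ * k13
  let del : IA n := tau * sig⁻¹
  have rel : kap * sig * del * sig⁻¹ * kap⁻¹ = del * sig * kap * del * kap⁻¹ * sig⁻¹ * del⁻¹ := by
    apply Subtype.ext
    exact exact_rel p q t hpq hpt hqt (K3 p q t hpq hpt.symm) (K3 q p t hpq.symm hqt.symm)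
      (K p q hpq) (K q p hpq.symm) (K p t hpt) (K q t hqt) rfl rfl rfl rfl rfl rfl _ _ _ _
      rfl rfl rfl rfl
  have rel2 := congrArg (QuotientGroup.mk' N) rel
  simp only [map_mul, map_inv] at rel2
  have e1 : QuotientGroup.mk' N kap = 1 := by
    simp only [kap, map_mul, m12, m21, one_mul]
  have e2 : QuotientGroup.mk' N sig = QuotientGroup.mk' N A := by
    simp only [sig, map_mul, m23, mul_one]
  have e3 : QuotientGroup.mk' N del = QuotientGroup.mk' N B * (QuotientGroup.mk' N A)⁻¹ := by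
    simp only [del, tau, sig, map_mul, map_inv, m23, m21, m13, mul_one, one_mul, inv_one]
  have key := abstract_rel _ _ _ _ _ e1 e2 e3 rel2
  have key2 : QuotientGroup.mk' N (A * B * A⁻¹ * A⁻¹ * B * A * B⁻¹ * B⁻¹) = 1 := by
    simp only [map_mul, map_inv]; exact key
  rw [← MonoidHom.mem_ker, QuotientGroup.ker_mk'] at key2
  exact ⟨_, key2, rfl⟩

theorem r_mem_T (hp : p < t) (hq : q < t) : r n p q t hpq hpt hqt ∈ T n := by
  have hA : K3 p q t hpq hpt.symm ∈ T n := Subgroup.subset_closure (K3_mem _ _ _ _ _ hq)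
  have hB : K3 q p t hpq.symm hqt.symm ∈ T n := Subgroup.subset_closure (K3_mem _ _ _ _ _ hp)
  unfold r
  exact mul_mem (mul_mem (mul_mem (mul_mem (mul_mem (mul_mem (mul_mem hA hB) (inv_mem hA))
    (inv_mem hA)) hB) hA) (inv_mem hB)) (inv_mem hB)

/-- the homomorphism with prescribed values on three generators -/
def g3 {D : Type} [Group D] (u v w : D) : F n →* D :=
  FreeGroup.lift (fun m => if m = p then u else if m = q then v else if m = t then w else 1)

theorem g3_p {D : Type} [Group D] (u v w : D) : g3 p q t u v w (x p) = u := by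
  simp [g3, x]

include hpq in
theorem g3_q {D : Type} [Group D] (u v w : D) : g3 p q t u v w (x q) = v := by
  simp [g3, x, hpq.symm]

include hpt hqt in
theorem g3_t {D : Type} [Group D] (u v w : D) : g3 p q t u v w (x t) = w := by
  simp [g3, x, hpt.symm, hqt.symm]

theorem g3_m {D : Type} [Group D] (u v w u' v' w' : D) (m : Fin n) (h1 : m ≠ p) (h2 : m ≠ q)
    (h3 : m ≠ t) : g3 p q t u v w (x m) = g3 p q t u' v' w' (x m) := by
  simp [g3, x, h1, h2, h3]

include hpq hpt hqt in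
theorem g3_a {D : Type} [Group D] (u v w : D) (z : F n) :
    g3 p q t u v w (K3 p q t hpq hpt.symm z) = g3 p q t (u * (v * w * v⁻¹ * w⁻¹)) v w z := by
  have : (g3 p q t u v w).comp (K3 p q t hpq hpt.symm).toMonoidHom =
      g3 p q t (u * (v * w * v⁻¹ * w⁻¹)) v w := by
    apply FreeGroup.ext_hom
    intro m
    change g3 p q t u v w (K3 p q t hpq hpt.symm (x m)) = g3 p q t (u * (v * w * v⁻¹ * w⁻¹)) v w (x m)
    by_cases h1 : m = p
    · subst h1
      rw [K3_self, g3_p]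
      simp only [map_mul, map_inv, g3_p, g3_q _ _ _ hpq, g3_t _ _ _ hpt hqt]
    · rw [K3_ne _ _ _ _ _ _ h1]
      by_cases h2 : m = q
      · subst h2
        rw [g3_q _ _ _ hpq, g3_q _ _ _ hpq]
      · by_cases h3 : m = t
        · subst h3
          rw [g3_t _ _ _ hpt hqt, g3_t _ _ _ hpt hqt]
        · exact g3_m _ _ _ _ _ _ _ _ _ _ h1 h2 h3
  exact DFunLike.congr_fun this z

include hpq hpt hqt in
theorem g3_b {D : Type} [Group D] (u v w : D) (z : F n) :
    g3 p q t u v w (K3 q p t hpq.symm hqt.symm z) = g3 p q t u (v * (u * w * u⁻¹ * w⁻¹)) w z := by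
  have : (g3 p q t u v w).comp (K3 q p t hpq.symm hqt.symm).toMonoidHom =
      g3 p q t u (v * (u * w * u⁻¹ * w⁻¹)) w := by
    apply FreeGroup.ext_hom
    intro m
    change g3 p q t u v w (K3 q p t hpq.symm hqt.symm (x m)) =
      g3 p q t u (v * (u * w * u⁻¹ * w⁻¹)) w (x m)
    by_cases h2 : m = q
    · subst h2
      rw [K3_self, g3_q _ _ _ hpq]
      simp only [map_mul, map_inv, g3_p, g3_q _ _ _ hpq, g3_t _ _ _ hpt hqt]
    · rw [K3_ne _ _ _ _ _ _ h2]
      by_cases h1 : m = p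
      · subst h1
        rw [g3_p, g3_p]
      · by_cases h3 : m = t
        · subst h3
          rw [g3_t _ _ _ hpt hqt, g3_t _ _ _ hpt hqt]
        · exact g3_m _ _ _ _ _ _ _ _ _ _ h1 h2 h3
  exact DFunLike.congr_fun this z

include hpq hpt hqt in
theorem g3_a' {D : Type} [Group D] (u v w : D) (z : F n) :
    g3 p q t u v w ((K3 p q t hpq hpt.symm)⁻¹ z) =
      g3 p q t (u * (v * w * v⁻¹ * w⁻¹)⁻¹) v w z := by
  have h := g3_a p q t hpq hpt hqt (u * (v * w * v⁻¹ * w⁻¹)⁻¹) v w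
    ((K3 p q t hpq hpt.symm)⁻¹ z)
  rw [MulAut.apply_inv_self, inv_mul_cancel_right] at h
  exact h.symm

include hpq hpt hqt in
theorem g3_b' {D : Type} [Group D] (u v w : D) (z : F n) :
    g3 p q t u v w ((K3 q p t hpq.symm hqt.symm)⁻¹ z) =
      g3 p q t u (v * (u * w * u⁻¹ * w⁻¹)⁻¹) w z := by
  have h := g3_b p q t hpq hpt hqt u (v * (u * w * u⁻¹ * w⁻¹)⁻¹) w
    ((K3 q p t hpq.symm hqt.symm)⁻¹ z)
  rw [MulAut.apply_inv_self, inv_mul_cancel_right] at h
  exact h.symm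

/-- the finite test group -/
abbrev D0 : Type := Equiv.Perm (Fin 3) × Equiv.Perm (Fin 3)

/-- one step of the computation -/
def sa (z : D0 × D0 × D0) : D0 × D0 × D0 :=
  (z.1 * (z.2.1 * z.2.2 * z.2.1⁻¹ * z.2.2⁻¹), z.2.1, z.2.2)
def sa' (z : D0 × D0 × D0) : D0 × D0 × D0 :=
  (z.1 * (z.2.1 * z.2.2 * z.2.1⁻¹ * z.2.2⁻¹)⁻¹, z.2.1, z.2.2)
def sb (z : D0 × D0 × D0) : D0 × D0 × D0 :=
  (z.1, z.2.1 * (z.1 * z.2.2 * z.1⁻¹ * z.2.2⁻¹), z.2.2)
def sb' (z : D0 × D0 × D0) : D0 × D0 × D0 :=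
  (z.1, z.2.1 * (z.1 * z.2.2 * z.1⁻¹ * z.2.2⁻¹)⁻¹, z.2.2)
def gz (z : D0 × D0 × D0) : F n →* D0 := g3 p q t z.1 z.2.1 z.2.2

theorem gz_r (z : D0 × D0 × D0) (y : F n) :
    gz p q t z (r n p q t hpq hpt hqt y) = gz p q t (sb' (sb' (sa (sb (sa' (sa' (sb (sa z)))))))) y := by
  have ea : ∀ z y, gz p q t z (K3 p q t hpq hpt.symm y) = gz p q t (sa z) y :=
    fun z y => g3_a p q t hpq hpt hqt _ _ _ y
  have eb : ∀ z y, gz p q t z (K3 q p t hpq.symm hqt.symm y) = gz p q t (sb z) y :=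
    fun z y => g3_b p q t hpq hpt hqt _ _ _ y
  have ea' : ∀ z y, gz p q t z ((K3 p q t hpq hpt.symm)⁻¹ y) = gz p q t (sa' z) y :=
    fun z y => g3_a' p q t hpq hpt hqt _ _ _ y
  have eb' : ∀ z y, gz p q t z ((K3 q p t hpq.symm hqt.symm)⁻¹ y) = gz p q t (sb' z) y :=
    fun z y => g3_b' p q t hpq hpt hqt _ _ _ y
  unfold r
  simp only [MulAut.mul_apply, ea, eb, ea', eb']

/-- starting triple -/
def z0 : D0 × D0 × D0 :=
  ((finRotate 3, 1), (1, finRotate 3), (Equiv.swap 0 1, Equiv.swap 0 1))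

theorem z0_ne : (sb' (sb' (sa (sb (sa' (sa' (sb (sa z0)))))))).1 ≠ z0.1 := by decide +kernel

theorem r_ne_one : r n p q t hpq hpt hqt ≠ 1 := by
  intro h
  have h1 := gz_r p q t hpq hpt hqt z0 (x p)
  rw [h, MulAut.one_apply] at h1
  unfold gz at h1
  rw [g3_p, g3_p] at h1
  exact z0_ne h1.symm

end Relation

/-- For every `n ≥ 3` the intersection of the normal closure of `C(n)` in `IA(F(n))` with `T(n)`
is nontrivial. -/
theorem result : ∀ n : ℕ, 3 ≤ n → Cbar n ⊓ T n ≠ ⊥ := by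
  intro n hn h
  have hpq : (⟨0, by omega⟩ : Fin n) ≠ ⟨1, by omega⟩ := by simp [Fin.ext_iff]
  have hpt : (⟨0, by omega⟩ : Fin n) ≠ ⟨2, by omega⟩ := by simp [Fin.ext_iff]
  have hqt : (⟨1, by omega⟩ : Fin n) ≠ ⟨2, by omega⟩ := by simp [Fin.ext_iff]
  have hp : (⟨0, by omega⟩ : Fin n) < ⟨2, by omega⟩ := by simp [Fin.lt_def]
  have hq : (⟨1, by omega⟩ : Fin n) < ⟨2, by omega⟩ := by simp [Fin.lt_def]
  have hm : r n _ _ _ hpq hpt hqt ∈ Cbar n ⊓ T n :=
    ⟨r_mem_Cbar _ _ _ hpq hpt hqt hp hq, r_mem_T _ _ _ hpq hpt hqt hp hq⟩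
  rw [h, Subgroup.mem_bot] at hm
  exact r_ne_one _ _ _ hpq hpt hqt hm

end Pool.Agent.Results.MP_0edd48_al.NeverTrivial
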